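import Pool.Agent.Helper56.H94.Cls
import Pool.Agent.Helper45.FM.Glob

/-!
# Class number bounds for the degrees of unramified extensions, in the form used for `T''`
-/

set_option autoImplicit false

open NumberField

namespace Pool.Agent.Helper56.H94

/-- If `p ^ (W + 1)` does not divide the class number, all cyclic unramified extensions of
`p`-power degree have degree at most `p ^ W` (`p` odd). -/
theorem classBound (K : Type) [Field K] [NumberField K] {p W : ℕ} (hp : p.Prime) (hp2 : p ≠ 2)
    (h : ¬ p ^ (W + 1) ∣ classNumber K) : Pool.Agent.Helper45.FM.ClassBound K p W := by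
  intro F _ _ _ _ hu hc j hj
  by_contra hW
  push Not at hW
  have hodd : Odd (Nat.card (F ≃ₐ[K] F)) := by
    rw [hj]
    exact (hp.odd_of_ne_two hp2).pow
  have := IsUnramifiedAtInfinitePlaces_of_odd_card_aut (k := K) (K := F) hodd
  have h1 : Nat.card (F ≃ₐ[K] F) ∣ classNumber K := card_dvd_classNumber hu
  rw [hj] at h1
  exact h ((pow_dvd_pow p hW).trans h1)

/-- `p ∤ h_K`, `p` odd: no cyclic unramified extension of degree `p`. -/
theorem classBound_zero (K : Type) [Field K] [NumberField K] {p : ℕ} (hp : p.Prime) (hp2 : p ≠ 2)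
    (h : ¬ p ∣ classNumber K) : Pool.Agent.Helper45.FM.ClassBound K p 0 :=
  classBound K hp hp2 (by rwa [zero_add, pow_one])

/-- Every number field satisfies some class bound. -/
theorem exists_classBound (K : Type) [Field K] [NumberField K] {p : ℕ} (hp : p.Prime)
    (hp2 : p ≠ 2) : ∃ W, Pool.Agent.Helper45.FM.ClassBound K p W := by
  obtain ⟨W, hW⟩ : ∃ W, ¬ p ^ (W + 1) ∣ classNumber K := by
    refine ⟨classNumber K, fun h => ?_⟩
    have h0 : classNumber K ≠ 0 := by
      rw [classNumber]; exact Fintype.card_ne_zero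
    have h1 := Nat.le_of_dvd (Nat.pos_of_ne_zero h0) h
    have h2 : classNumber K + 1 < p ^ (classNumber K + 1) := Nat.lt_pow_self hp.one_lt
    omega
  exact ⟨W, classBound K hp hp2 hW⟩

end Pool.Agent.Helper56.H94
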