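import Mathlib

/-!
# The subgroup generated by the conjugates of independent elements with one relation
-/

set_option autoImplicit false
set_option linter.unusedSectionVars false

open Finset

namespace Pool.Agent.Helper56.H94

section Free

variable {G : Type*} [Group G] [Fintype G] {I : Type*} [Fintype I]

/-- translation of the functions on `I × G` -/
def tr (g : G) : (I × G → ℤ) →+ (I × G → ℤ) where
  toFun a := fun x => a (x.1, g⁻¹ * x.2)
  map_zero' := rfl
  map_add' _ _ := rfl

/-- `σ - 1` on the functions -/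
def dA (σ : G) : (I × G → ℤ) →+ (I × G → ℤ) := tr σ - AddMonoidHom.id _

/-- the norm on the functions -/
def tA : (I × G → ℤ) →+ (I × G → ℤ) := ∑ g : G, tr g

lemma tr_apply (g : G) (a : I × G → ℤ) (x : I × G) : tr g a x = a (x.1, g⁻¹ * x.2) := rfl

lemma dA_apply (σ : G) (a : I × G → ℤ) (x : I × G) :
    dA σ a x = a (x.1, σ⁻¹ * x.2) - a x := rfl

lemma tA_apply (a : I × G → ℤ) (x : I × G) : tA a x = ∑ g : G, a (x.1, g) := by
  have : tA a x = ∑ g : G, a (x.1, g⁻¹ * x.2) := by
    rw [tA, AddMonoidHom.finsetSum_apply, Finset.sum_apply]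
    rfl
  rw [this]
  exact Fintype.sum_bijective (fun g : G => g⁻¹ * x.2)
    ((Equiv.inv G).trans (Equiv.mulRight x.2)).bijective _ _ (fun g => rfl)

lemma sum_dA (σ : G) (a : I × G → ℤ) : ∑ x, dA σ a x = 0 := by
  simp only [dA_apply, Finset.sum_sub_distrib]
  rw [sub_eq_zero]
  exact Fintype.sum_bijective (fun x : I × G => (x.1, σ⁻¹ * x.2))
    ((Equiv.refl I).prodCongr (Equiv.mulLeft σ⁻¹)).bijective _ _ (fun x => rfl)

lemma tA_dA (σ : G) (a : I × G → ℤ) : tA (dA σ a) = 0 := by
  funext x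
  rw [tA_apply]
  simp only [dA_apply, Finset.sum_sub_distrib, Pi.zero_apply]
  rw [sub_eq_zero]
  exact Fintype.sum_bijective (fun g : G => σ⁻¹ * g) (Equiv.mulLeft σ⁻¹).bijective _ _
    (fun g => rfl)

lemma dA_tA (σ : G) (a : I × G → ℤ) : dA σ (tA a) = 0 := by
  funext x
  rw [dA_apply, tA_apply, tA_apply, Pi.zero_apply, sub_self]

lemma exists_tA {σ : G} (hσ : ∀ g, g ∈ Subgroup.zpowers σ) {a : I × G → ℤ} (ha : dA σ a = 0) :
    ∃ b, a = tA b := by
  classical
  have h1 : ∀ (i : I) (g : G), a (i, σ⁻¹ * g) = a (i, g) := by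
    intro i g
    have := congrFun ha (i, g)
    rw [dA_apply, Pi.zero_apply, sub_eq_zero] at this
    exact this
  have h1' : ∀ (i : I) (g : G), a (i, σ * g) = a (i, g) := by
    intro i g
    have := h1 i (σ * g)
    rw [inv_mul_cancel_left] at this
    exact this.symm
  have h2 : ∀ (i : I) (g : G), a (i, g) = a (i, 1) := by
    intro i g
    obtain ⟨k, rfl⟩ := hσ g
    change a (i, σ ^ k) = _
    induction k using Int.induction_on with
    | zero => simp
    | succ n ih => rw [add_comm, zpow_add, zpow_one, h1', ih]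
    | pred n ih => rw [sub_eq_add_neg, add_comm, zpow_add, zpow_neg_one, h1, ih]
  refine ⟨fun x => if x.2 = 1 then a (x.1, 1) else 0, ?_⟩
  funext x
  rw [tA_apply]
  simp only [Finset.sum_ite_eq', Finset.mem_univ, if_true]
  exact h2 x.1 x.2

lemma single_mem {σ : G} [DecidableEq (I × G)] (hσ : ∀ g, g ∈ Subgroup.zpowers σ) (i : I) (g : G)
    (n : ℤ) : Pi.single (i, g) n - Pi.single (i, 1) n ∈ (dA σ : (I × G → ℤ) →+ _).range := by
  have hs : ∀ h : G, Pi.single (i, σ * h) n - Pi.single (i, h) n ∈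
      (dA σ : (I × G → ℤ) →+ _).range := by
    intro h
    refine ⟨Pi.single (i, h) n, ?_⟩
    funext x
    rw [dA_apply, Pi.sub_apply]
    congr 1
    obtain ⟨j, k⟩ := x
    by_cases hx : (j, k) = (i, σ * h)
    · rw [Prod.mk.injEq] at hx
      obtain ⟨rfl, rfl⟩ := hx
      simp
    · rw [Pi.single_eq_of_ne hx, Pi.single_eq_of_ne]
      intro h3
      apply hx
      rw [Prod.mk.injEq] at h3 ⊢
      refine ⟨h3.1, ?_⟩
      rw [← h3.2, mul_inv_cancel_left]
  have hk : ∀ k : ℤ, Pi.single (i, σ ^ k) n - Pi.single (i, (1 : G)) n ∈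
      (dA σ : (I × G → ℤ) →+ _).range := by
    intro k
    induction k using Int.induction_on with
    | zero => rw [zpow_zero, sub_self]; exact AddSubgroup.zero_mem _
    | succ m ih =>
      have h3 := AddSubgroup.add_mem _ (hs (σ ^ (m : ℤ))) ih
      rw [sub_add_sub_cancel, ← zpow_one_add, add_comm] at h3
      exact h3
    | pred m ih =>
      have h3 := AddSubgroup.sub_mem _ ih (hs (σ ^ (-(m : ℤ) - 1)))
      have h4 : σ * σ ^ (-(m : ℤ) - 1) = σ ^ (-(m : ℤ)) := by
        rw [← zpow_one_add]; congr 1; ring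
      rw [h4] at h3
      convert h3 using 1
      abel
  obtain ⟨k, rfl⟩ := hσ g
  exact hk k

lemma exists_dA {σ : G} (hσ : ∀ g, g ∈ Subgroup.zpowers σ) {a : I × G → ℤ} (ha : tA a = 0) :
    ∃ b, a = dA σ b := by
  classical
  have h1 : a = ∑ x : I × G, (Pi.single x (a x) - Pi.single (x.1, 1) (a x)) := by
    rw [Finset.sum_sub_distrib, Finset.univ_sum_single]
    have h2 : ∑ x : I × G, (Pi.single (x.1, (1 : G)) (a x) : I × G → ℤ) = 0 := by
      rw [Fintype.sum_prod_type]
      apply Finset.sum_eq_zero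
      intro i _
      have h3 := congrFun ha (i, 1)
      rw [tA_apply, Pi.zero_apply] at h3
      have h4 : ∑ y : G, (Pi.single (i, (1 : G)) (a (i, y)) : I × G → ℤ) =
          Pi.single (i, (1 : G)) (∑ y : G, a (i, y)) := by
        funext z
        rw [Finset.sum_apply]
        by_cases hz : z = (i, 1)
        · subst hz; simp
        · simp [Pi.single_eq_of_ne hz]
      rw [h4, h3, Pi.single_zero]
    rw [h2, sub_zero]
  have h3 : a ∈ (dA σ : (I × G → ℤ) →+ _).range := by
    rw [h1]
    exact AddSubgroup.sum_mem _ fun x _ => single_mem hσ x.1 x.2 (a x)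
  obtain ⟨b, hb⟩ := h3
  exact ⟨b, hb.symm⟩

end Free

end Pool.Agent.Helper56.H94
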