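import Mathlib

/-!
# Indices of images and kernels: the Herbrand quotient of a subgroup of finite index
-/

set_option autoImplicit false

namespace Pool.Agent.Helper56.H94

variable {M M' : Type*} [AddCommGroup M] [AddCommGroup M']

/-- the index of a subgroup is the product of the index of the image and of the index in the
kernel -/
theorem index_split (φ : M →+ M') (V : AddSubgroup M) :
    V.index = (V.map φ).relIndex φ.range * V.relIndex φ.ker := by
  have h1 : V.relIndex (V ⊔ φ.ker) * (V ⊔ φ.ker).index = V.index :=
    AddSubgroup.relIndex_mul_index le_sup_left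
  have h2 : V.relIndex (V ⊔ φ.ker) = V.relIndex φ.ker := AddSubgroup.relIndex_sup_left _ _
  have h3 : (V.map φ).relIndex φ.range = (V ⊔ φ.ker).index := by
    rw [AddMonoidHom.range_eq_map, AddSubgroup.relIndex_map_map, top_sup_eq,
      AddSubgroup.relIndex_top_right]
  rw [h3, ← h1, h2, mul_comm]

/-- The Herbrand quotient does not change if one passes to a subgroup of finite index; version for
a subgroup with `H⁰ = 0` and `|H⁻¹| = N`. -/
theorem herbrand {D T : M →+ M} (hDT : ∀ x, D (T x) = 0) (hTD : ∀ x, T (D x) = 0)
    {V : AddSubgroup M} (hV : V.index ≠ 0) {N : ℕ} (h0 : D.ker ⊓ V = V.map T)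
    (h1 : (V.map D).relIndex (T.ker ⊓ V) = N) (hDV : V.map D ≤ V) :
    D.range.relIndex T.ker = N * T.range.relIndex D.ker ∧ T.range.relIndex D.ker ≠ 0 := by
  have e1 := index_split D V
  have e2 := index_split T V
  have hrT : T.range ≤ D.ker := by
    rintro _ ⟨x, rfl⟩
    exact hDT x
  have hrD : D.range ≤ T.ker := by
    rintro _ ⟨x, rfl⟩
    exact hTD x
  have hmT : V.map T ≤ T.range := AddSubgroup.map_le_range T V
  have hmD : V.map D ≤ D.range := AddSubgroup.map_le_range D V
  -- (3)
  have e3 : V.relIndex D.ker = (V.map T).relIndex T.range * T.range.relIndex D.ker := by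
    rw [AddSubgroup.relIndex_mul_relIndex _ _ _ hmT hrT, ← h0, AddSubgroup.inf_relIndex_left]
  -- (4)
  have e4 : (V.map D).relIndex T.ker = (V.map D).relIndex D.range * D.range.relIndex T.ker := by
    rw [AddSubgroup.relIndex_mul_relIndex _ _ _ hmD hrD]
  have e5 : (V.map D).relIndex T.ker = N * V.relIndex T.ker := by
    have hle : V.map D ≤ T.ker ⊓ V := le_inf (hmD.trans hrD) hDV
    rw [← AddSubgroup.relIndex_mul_relIndex _ _ _ hle inf_le_left, h1,
      AddSubgroup.inf_relIndex_left]
  rw [e3] at e1
  have hD : (V.map D).relIndex D.range ≠ 0 := by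
    intro h
    rw [h, zero_mul] at e1
    exact hV e1
  have hT : (V.map T).relIndex T.range ≠ 0 := by
    intro h
    rw [h, zero_mul] at e2
    exact hV e2
  have hR : T.range.relIndex D.ker ≠ 0 := by
    intro h
    rw [h, mul_zero, mul_zero] at e1
    exact hV e1
  refine ⟨?_, hR⟩
  rw [e5] at e4
  -- `e4 : N * [T.ker : V] = [DM : DV] * [T.ker : DM]`
  have h6 : (V.map D).relIndex D.range * (V.map T).relIndex T.range * D.range.relIndex T.ker =
      (V.map D).relIndex D.range * (V.map T).relIndex T.range *
        (N * T.range.relIndex D.ker) := by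
    calc (V.map D).relIndex D.range * (V.map T).relIndex T.range * D.range.relIndex T.ker
        = (V.map T).relIndex T.range * ((V.map D).relIndex D.range * D.range.relIndex T.ker) := by
          ring
      _ = N * ((V.map T).relIndex T.range * V.relIndex T.ker) := by rw [← e4]; ring
      _ = N * ((V.map D).relIndex D.range * ((V.map T).relIndex T.range *
            T.range.relIndex D.ker)) := by rw [← e2, e1]
      _ = _ := by ring
  exact Nat.eq_of_mul_eq_mul_left (Nat.pos_of_ne_zero (mul_ne_zero hD hT)) h6

end Pool.Agent.Helper56.H94
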