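import Mathlib
import Pool.Agent.Helper56.H94.Free
import Pool.Agent.Helper56.H94.Index

/-!
# Herbrand quotient of a module which contains, with finite index, the module generated by the
conjugates of elements with one positive relation
-/

set_option autoImplicit false
set_option linter.unusedSectionVars false

open Finset

namespace Pool.Agent.Helper56.H94

variable {G : Type*} [Group G] [Fintype G] {I : Type*} [Fintype I] {M : Type*} [AddCommGroup M]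

/-- `σ - 1` -/
def dM (ρ : G → M →+ M) (σ : G) : M →+ M := ρ σ - AddMonoidHom.id M

/-- the norm -/
def tM (ρ : G → M →+ M) : M →+ M := ∑ g : G, ρ g

/-- the module generated by the conjugates of the `ε i` -/
def fM (ρ : G → M →+ M) (ε : I → M) : (I × G → ℤ) →+ M where
  toFun a := ∑ x, a x • ρ x.2 (ε x.1)
  map_zero' := by simp
  map_add' a b := by
    rw [← Finset.sum_add_distrib]
    exact Finset.sum_congr rfl fun x _ => by rw [Pi.add_apply, add_smul]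

variable (ρ : G → M →+ M) (ε : I → M)

lemma fM_apply (a : I × G → ℤ) : fM ρ ε a = ∑ x, a x • ρ x.2 (ε x.1) := rfl

lemma dM_apply (σ : G) (x : M) : dM ρ σ x = ρ σ x - x := rfl

lemma tM_apply (x : M) : tM ρ x = ∑ g : G, ρ g x := by
  rw [tM, AddMonoidHom.finsetSum_apply]

variable {ρ} (hρ : ∀ g h x, ρ (g * h) x = ρ g (ρ h x))

include hρ

lemma fM_tr (g : G) (a : I × G → ℤ) : fM ρ ε (tr g a) = ρ g (fM ρ ε a) := by
  rw [fM_apply, fM_apply, map_sum]
  refine Fintype.sum_bijective (fun x : I × G => (x.1, g⁻¹ * x.2))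
    ((Equiv.refl I).prodCongr (Equiv.mulLeft g⁻¹)).bijective _ _ (fun x => ?_)
  rw [map_zsmul, tr_apply, ← hρ, mul_inv_cancel_left]

lemma fM_dA (σ : G) (a : I × G → ℤ) : fM ρ ε (dA σ a) = dM ρ σ (fM ρ ε a) := by
  rw [dM_apply, ← fM_tr ε hρ]
  exact map_sub (fM ρ ε) (tr σ a) a

lemma fM_tA (a : I × G → ℤ) : fM ρ ε (tA a) = tM ρ (fM ρ ε a) := by
  rw [tM_apply, tA, AddMonoidHom.finsetSum_apply, map_sum]
  exact Finset.sum_congr rfl fun g _ => fM_tr ε hρ g a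

lemma dM_tM (σ : G) (x : M) : dM ρ σ (tM ρ x) = 0 := by
  rw [dM_apply, tM_apply, map_sum, sub_eq_zero]
  exact Fintype.sum_bijective (fun g => σ * g) (Equiv.mulLeft σ).bijective _ _
    (fun g => by rw [hρ])

lemma tM_dM (σ : G) (x : M) : tM ρ (dM ρ σ x) = 0 := by
  rw [dM_apply, map_sub, tM_apply, tM_apply, sub_eq_zero]
  exact Fintype.sum_bijective (fun g => g * σ) (Equiv.mulRight σ).bijective _ _
    (fun g => by rw [hρ])

omit hρ in
lemma tA_tA (b : I × G → ℤ) : tA (tA b) = Fintype.card G • tA b := by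
  funext x
  rw [tA_apply, Pi.smul_apply]
  simp only [tA_apply, Finset.sum_const, Finset.card_univ]

section

variable {ε} {σ : G} (hσ : ∀ g, g ∈ Subgroup.zpowers σ)
  (hS : ∀ a : I × G → ℤ, fM ρ ε a = 0 → ∑ x, a x = 0 → a = 0)

include hS in
/-- relations are fixed -/
lemma dA_eq_zero {a : I × G → ℤ} (ha : fM ρ ε a = 0) : dA σ a = 0 :=
  hS _ (by rw [fM_dA ε hρ, ha, map_zero]) (sum_dA σ a)

include hσ hS in
lemma ker_inf_range : (dM ρ σ).ker ⊓ (fM ρ ε).range = (fM ρ ε).range.map (tM ρ) := by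
  ext x
  constructor
  · rintro ⟨h1, ⟨a, rfl⟩⟩
    have h2 : dM ρ σ (fM ρ ε a) = 0 := h1
    have h3 : dA σ a = 0 := hS _ (by rw [fM_dA ε hρ, h2]) (sum_dA σ a)
    obtain ⟨b, rfl⟩ := exists_tA hσ h3
    exact ⟨fM ρ ε b, ⟨b, rfl⟩, (fM_tA ε hρ b).symm⟩
  · rintro ⟨_, ⟨b, rfl⟩, rfl⟩
    exact ⟨dM_tM hρ σ _, ⟨tA b, fM_tA ε hρ b⟩⟩

include hσ hS in
/-- relations are norms -/
lemma rel_eq_tA {a : I × G → ℤ} (ha : fM ρ ε a = 0) : ∃ b, a = tA b :=
  exists_tA hσ (dA_eq_zero hρ (σ := σ) hS ha)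

include hσ hS in
lemma tA_rel {z : I × G → ℤ} (hz : fM ρ ε z = 0) : tA z = Fintype.card G • z := by
  obtain ⟨b, rfl⟩ := rel_eq_tA hρ hσ hS hz
  exact tA_tA b

include hσ hS in
theorem relIndex_eq (x₀ : I × G) (hS' : ∀ a : I × G → ℤ, fM ρ ε a = 0 → a x₀ = 0 → a = 0)
    (hne : ∃ a : I × G → ℤ, a ≠ 0 ∧ fM ρ ε a = 0) :
    ((fM ρ ε).range.map (dM ρ σ)).relIndex ((tM ρ).ker ⊓ (fM ρ ε).range) = Fintype.card G := by
  set N := Fintype.card G with hN
  -- the group `P`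
  set P : AddSubgroup (I × G → ℤ) := (tM ρ).ker.comap (fM ρ ε) with hP
  have hPa : ∀ a, a ∈ P ↔ fM ρ ε (tA a) = 0 := by
    intro a
    rw [fM_tA ε hρ]; rfl
  have h1 : (tM ρ).ker ⊓ (fM ρ ε).range = P.map (fM ρ ε) := by
    ext x
    constructor
    · rintro ⟨h1, ⟨a, rfl⟩⟩
      exact ⟨a, h1, rfl⟩
    · rintro ⟨a, h, rfl⟩
      exact ⟨h, ⟨a, rfl⟩⟩
  rw [h1, ← AddSubgroup.relIndex_comap]
  let e : (I × G → ℤ) →+ ℤ := (Pi.evalAddMonoidHom (fun _ => ℤ) x₀).comp tA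
  have he : ∀ a, e a = tA a x₀ := fun a => rfl
  obtain ⟨d, hd⟩ : ∃ d : ℤ, P.map e = AddSubgroup.zmultiples d := by
    obtain ⟨d, hd⟩ := Int.subgroup_cyclic (P.map e)
    exact ⟨d, by rw [hd, AddSubgroup.zmultiples_eq_closure]⟩
  have hd0 : d ≠ 0 := by
    rintro rfl
    obtain ⟨a, ha, ha'⟩ := hne
    obtain ⟨b, rfl⟩ := rel_eq_tA hρ hσ hS ha'
    have hb : e b ∈ P.map e := ⟨b, (hPa b).2 ha', rfl⟩
    rw [hd, AddSubgroup.zmultiples_zero_eq_bot, AddSubgroup.mem_bot, he] at hb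
    exact ha (hS' _ ha' hb)
  have h2 : (((fM ρ ε).range.map (dM ρ σ)).comap (fM ρ ε)).relIndex P =
      ((AddSubgroup.zmultiples ((N : ℤ) * d)).comap e).relIndex P := by
    rw [← AddSubgroup.inf_relIndex_right, ← AddSubgroup.inf_relIndex_right
      ((AddSubgroup.zmultiples ((N : ℤ) * d)).comap e)]
    congr 1
    ext a
    rw [AddSubgroup.mem_inf, AddSubgroup.mem_inf]
    refine and_congr_left fun ha => ?_
    rw [AddSubgroup.mem_comap, AddSubgroup.mem_comap, AddSubgroup.mem_zmultiples_iff]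
    constructor
    · rintro ⟨_, ⟨b, rfl⟩, hb⟩
      have h3 : fM ρ ε (a - dA σ b) = 0 := by
        rw [map_sub, fM_dA ε hρ, hb, sub_self]
      obtain ⟨c, hc⟩ := rel_eq_tA hρ hσ hS h3
      have hcP : e c ∈ P.map e := ⟨c, (hPa c).2 (by rw [← hc]; exact h3), rfl⟩
      rw [hd, AddSubgroup.mem_zmultiples_iff] at hcP
      obtain ⟨k, hk⟩ := hcP
      refine ⟨k, ?_⟩
      have h4 := tA_rel hρ hσ hS h3
      rw [map_sub, tA_dA, sub_zero] at h4
      rw [he, h4, Pi.smul_apply, hc, ← he, ← hk, nsmul_eq_mul, smul_eq_mul, smul_eq_mul]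
      ring
    · rintro ⟨k, hk⟩
      have hdP : d ∈ P.map e := by rw [hd]; exact AddSubgroup.mem_zmultiples d
      obtain ⟨b, hb, hbd⟩ := hdP
      have hb' : fM ρ ε (tA b) = 0 := (hPa b).1 hb
      have h3 : fM ρ ε (tA (a - k • tA b)) = 0 := by
        rw [map_sub, map_sub, (hPa a).1 ha, map_zsmul, tA_tA, map_zsmul, map_nsmul, hb',
          smul_zero, smul_zero, sub_zero]
      have h4 : tA (a - k • tA b) = 0 := by
        apply hS' _ h3
        rw [map_sub, map_zsmul, tA_tA, Pi.sub_apply, Pi.smul_apply, Pi.smul_apply, ← he, ← he,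
          hbd, ← hk, nsmul_eq_mul, smul_eq_mul, sub_self]
      obtain ⟨c, hc⟩ := exists_dA hσ h4
      refine ⟨fM ρ ε c, ⟨c, rfl⟩, ?_⟩
      rw [← fM_dA ε hρ, ← hc, map_sub, map_zsmul, hb', smul_zero, sub_zero]
  rw [h2, AddSubgroup.relIndex_comap, hd]
  have h3 : AddSubgroup.zmultiples ((N : ℤ) * d) ≤ AddSubgroup.zmultiples d := by
    rw [AddSubgroup.zmultiples_le]
    exact AddSubgroup.mem_zmultiples_iff.2 ⟨N, by rw [smul_eq_mul]⟩
  have h4 := AddSubgroup.relIndex_mul_index h3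
  rw [Int.index_zmultiples, Int.index_zmultiples, Int.natAbs_mul, Int.natAbs_natCast] at h4
  exact Nat.eq_of_mul_eq_mul_right (Int.natAbs_pos.2 hd0) h4

include hσ hS in
/-- **The Herbrand quotient.** -/
theorem herbrand_fM (x₀ : I × G) (hS' : ∀ a : I × G → ℤ, fM ρ ε a = 0 → a x₀ = 0 → a = 0)
    (hne : ∃ a : I × G → ℤ, a ≠ 0 ∧ fM ρ ε a = 0) (hfin : (fM ρ ε).range.index ≠ 0) :
    (dM ρ σ).range.relIndex (tM ρ).ker =
      Fintype.card G * (tM ρ).range.relIndex (dM ρ σ).ker ∧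
      (tM ρ).range.relIndex (dM ρ σ).ker ≠ 0 := by
  refine herbrand (dM_tM hρ σ) (tM_dM hρ σ) hfin (ker_inf_range hρ hσ hS)
    (relIndex_eq hρ hσ hS x₀ hS' hne) ?_
  rintro _ ⟨_, ⟨a, rfl⟩, rfl⟩
  exact ⟨dA σ a, fM_dA ε hρ σ a⟩

end

end Pool.Agent.Helper56.H94
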