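import Mathlib

/-!
# The Herbrand quotient of the units of a cyclic extension unramified at the infinite places
-/

set_option autoImplicit false
set_option linter.unusedSectionVars false

open Finset NumberField Module

namespace Pool.Agent.Helper56.H94

section Sign

variable {X : Type*} [Fintype X]

/-- a relation with one positive coefficient has only positive coefficients -/
lemma all_pos {l : X → X → ℝ} (h0 : ∀ x, ∑ y, l x y = 0) (hn : ∀ x y, x ≠ y → l x y < 0)
    {a : X → ℝ} (ha : ∀ y, ∑ x, a x * l x y = 0) {x₀ : X} (hx₀ : 0 < a x₀) (x : X) : 0 < a x := by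
  classical
  by_contra hx
  have h1 : ∑ y ∈ univ.filter (fun y => 0 < a y), ∑ x, a x * l x y = 0 :=
    Finset.sum_eq_zero fun y _ => ha y
  rw [Finset.sum_comm] at h1
  have h2 : ∀ z : X, 0 ≤ ∑ y ∈ univ.filter (fun y => 0 < a y), a z * l z y := by
    intro z
    rw [← Finset.mul_sum]
    by_cases hz : 0 < a z
    · apply mul_nonneg hz.le
      have h3 := h0 z
      rw [← Finset.sum_filter_add_sum_filter_not univ (fun y => 0 < a y)] at h3
      have h4 : ∑ y ∈ univ.filter (fun y => ¬ 0 < a y), l z y ≤ 0 := by
        apply Finset.sum_nonpos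
        intro y hy
        apply (hn z y _).le
        rintro rfl
        exact (Finset.mem_filter.1 hy).2 hz
      linarith
    · apply mul_nonneg_of_nonpos_of_nonpos (not_lt.1 hz)
      apply Finset.sum_nonpos
      intro y hy
      apply (hn z y _).le
      rintro rfl
      exact hz (Finset.mem_filter.1 hy).2
  have h3 : 0 < ∑ y ∈ univ.filter (fun y => 0 < a y), a x₀ * l x₀ y := by
    rw [← Finset.mul_sum]
    apply mul_pos hx₀
    have h3 := h0 x₀
    rw [← Finset.sum_filter_add_sum_filter_not univ (fun y => 0 < a y)] at h3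
    have h4 : ∑ y ∈ univ.filter (fun y => ¬ 0 < a y), l x₀ y < 0 := by
      apply Finset.sum_neg
      · intro y hy
        apply hn x₀ y
        rintro rfl
        exact (Finset.mem_filter.1 hy).2 hx₀
      · exact ⟨x, Finset.mem_filter.2 ⟨Finset.mem_univ _, hx⟩⟩
    linarith
  have h4 := Finset.sum_pos' (fun z (_ : z ∈ (univ : Finset X)) => h2 z)
    ⟨x₀, Finset.mem_univ _, h3⟩
  rw [h1] at h4
  exact lt_irrefl _ h4

lemma eq_zero_of_sum {l : X → X → ℝ} (h0 : ∀ x, ∑ y, l x y = 0)
    (hn : ∀ x y, x ≠ y → l x y < 0) {a : X → ℤ} (ha : ∀ y, ∑ x, (a x : ℝ) * l x y = 0)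
    (hs : ∑ x, a x = 0 ∨ ∃ x, a x = 0) : a = 0 := by
  by_contra hne
  have hex : ∃ x, a x ≠ 0 := by
    by_contra h
    push Not at h
    exact hne (funext h)
  obtain ⟨x, hx⟩ := hex
  rcases lt_or_gt_of_ne hx with h | h
  · have h1 : ∀ z, 0 < ((-a z : ℤ) : ℝ) := by
      apply all_pos h0 hn (a := fun z => ((-a z : ℤ) : ℝ)) (x₀ := x)
      · intro y
        have := ha y
        simp only [Int.cast_neg, neg_mul, Finset.sum_neg_distrib, this, neg_zero]
      · exact_mod_cast neg_pos.2 h
    have h2 : ∀ z, a z < 0 := fun z => by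
      have := h1 z
      have h3 : 0 < -a z := by exact_mod_cast this
      linarith
    rcases hs with hs | ⟨z, hz⟩
    · exact absurd hs (Finset.sum_neg (fun z _ => h2 z) ⟨x, Finset.mem_univ _⟩).ne
    · exact absurd hz (h2 z).ne
  · have h1 : ∀ z, 0 < ((a z : ℤ) : ℝ) :=
      all_pos h0 hn (a := fun z => ((a z : ℤ) : ℝ)) ha (x₀ := x) (by exact_mod_cast h)
    have h2 : ∀ z, 0 < a z := fun z => by exact_mod_cast h1 z
    rcases hs with hs | ⟨z, hz⟩
    · exact absurd hs (Finset.sum_pos (fun z _ => h2 z) ⟨x, Finset.mem_univ _⟩).ne'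
    · exact absurd hz (h2 z).ne'

end Sign

section Rank

variable {X M : Type*} [Fintype X] [AddCommGroup M] [Module.Finite ℤ M]

lemma not_injective (h : finrank ℤ M < Fintype.card X) (φ : (X → ℤ) →ₗ[ℤ] M) :
    ¬ Function.Injective φ := by
  intro hφ
  have h1 := LinearMap.finrank_le_finrank_of_injective hφ
  rw [finrank_fintype_fun_eq_card] at h1
  omega

lemma exists_rel (h : finrank ℤ M < Fintype.card X) (f : (X → ℤ) →+ M) :
    ∃ a, a ≠ 0 ∧ f a = 0 := by
  by_contra hne
  push Not at hne
  apply not_injective h f.toIntLinearMap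
  rw [← LinearMap.ker_eq_bot, LinearMap.ker_eq_bot']
  intro a ha
  by_contra h1
  exact hne a h1 ha

lemma index_ne_zero (h : finrank ℤ M < Fintype.card X) (f : (X → ℤ) →+ M) (x₀ : X)
    (hf : ∀ a, f a = 0 → a x₀ = 0 → a = 0) : f.range.index ≠ 0 := by
  classical
  have hfin : Module.Finite ℤ (M ⧸ f.range) := by
    have : Module.Finite ℤ (M ⧸ f.toIntLinearMap.range) := inferInstance
    exact Module.Finite.of_surjective (QuotientAddGroup.mk' f.range).toIntLinearMap
      (QuotientAddGroup.mk'_surjective _)
  have htor : Module.IsTorsion ℤ (M ⧸ f.range) := by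
    intro x
    obtain ⟨m, rfl⟩ := QuotientAddGroup.mk'_surjective _ x
    by_contra hm
    push Not at hm
    -- the map `b ↦ f (b with zero at x₀) + b x₀ • m`
    let φ : (X → ℤ) →ₗ[ℤ] M :=
      { toFun := fun b => f (Function.update b x₀ 0) + b x₀ • m
        map_add' := by
          intro b c
          have : Function.update (b + c) x₀ 0 = Function.update b x₀ 0 +
              Function.update c x₀ (0 : ℤ) := by
            funext y
            by_cases hy : y = x₀
            · subst hy; simp
            · simp [Function.update_of_ne hy]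
          rw [this, map_add, Pi.add_apply, add_smul]
          abel
        map_smul' := by
          intro r b
          have : Function.update (r • b) x₀ 0 = r • Function.update b x₀ (0 : ℤ) := by
            funext y
            by_cases hy : y = x₀
            · subst hy; simp
            · simp [Function.update_of_ne hy]
          rw [this, map_zsmul, Pi.smul_apply, smul_add, smul_smul, RingHom.id_apply, smul_eq_mul] }
    apply not_injective h φ
    rw [← LinearMap.ker_eq_bot, LinearMap.ker_eq_bot']
    intro b hb
    have hb' : f (Function.update b x₀ 0) + b x₀ • m = 0 := hb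
    have h0 : b x₀ = 0 := by
      by_contra h0
      apply hm ⟨b x₀, mem_nonZeroDivisors_of_ne_zero h0⟩
      change b x₀ • QuotientAddGroup.mk' f.range m = 0
      rw [← map_zsmul, QuotientAddGroup.mk'_apply, QuotientAddGroup.eq_zero_iff]
      refine ⟨-Function.update b x₀ 0, ?_⟩
      rw [map_neg, neg_eq_iff_add_eq_zero]
      exact hb'
    have h1 : Function.update b x₀ 0 = b := by
      rw [← h0]; exact Function.update_eq_self x₀ b
    rw [h0, zero_smul, add_zero, h1] at hb'
    exact hf b hb' h0
  have : Finite (M ⧸ f.range) := Module.finite_of_fg_torsion _ htor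
  exact AddSubgroup.index_ne_zero_of_finite

end Rank

end Pool.Agent.Helper56.H94
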