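import Mathlib
import Pool.Agent.Helper56.H94.Units
import Pool.Agent.Helper56.H94.Gen

/-!
# The Herbrand quotient of the units, number fields
-/

set_option autoImplicit false
set_option linter.unusedSectionVars false

open Finset NumberField Module

namespace Pool.Agent.Helper56.H94

variable (K L : Type) [Field K] [NumberField K] [Field L] [NumberField L] [Algebra K L]
  [IsGalois K L]

/-- the action of the Galois group on the units -/
noncomputable def rho (g : L ≃ₐ[K] L) : Additive (𝓞 L)ˣ →+ Additive (𝓞 L)ˣ :=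
  MonoidHom.toAdditive (Units.map ((galRestrict (𝓞 K) K L (𝓞 L) g : 𝓞 L ≃ₐ[𝓞 K] 𝓞 L) : 𝓞 L →* 𝓞 L))

variable {K L}

lemma rho_coe (g : L ≃ₐ[K] L) (u : Additive (𝓞 L)ˣ) :
    (((Additive.toMul (rho K L g u) : (𝓞 L)ˣ) : 𝓞 L) : L) =
      g (((Additive.toMul u : (𝓞 L)ˣ) : 𝓞 L) : L) :=
  algebraMap_galRestrict_apply (𝓞 K) g _

lemma rho_mul (g h : L ≃ₐ[K] L) (u : Additive (𝓞 L)ˣ) :
    rho K L (g * h) u = rho K L g (rho K L h u) := by
  apply Additive.toMul.injective
  apply Units.ext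
  apply RingOfIntegers.ext
  rw [rho_coe, rho_coe, rho_coe]
  rfl

/-- the logarithm at a place -/
noncomputable def lw (w : InfinitePlace L) : Additive (𝓞 L)ˣ →+ ℝ where
  toFun u := w.mult * Real.log (w (((Additive.toMul u : (𝓞 L)ˣ) : 𝓞 L) : L))
  map_zero' := by simp
  map_add' u v := by
    have h : w (((Additive.toMul (u + v) : (𝓞 L)ˣ) : 𝓞 L) : L) =
        w (((Additive.toMul u : (𝓞 L)ˣ) : 𝓞 L) : L) *
          w (((Additive.toMul v : (𝓞 L)ˣ) : 𝓞 L) : L) := by
      rw [toMul_add, Units.val_mul]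
      exact map_mul w _ _
    rw [h, Real.log_mul (Units.pos_at_place _ w).ne' (Units.pos_at_place _ w).ne', mul_add]

lemma lw_apply (w : InfinitePlace L) (u : Additive (𝓞 L)ˣ) :
    lw w u = w.mult * Real.log (w (((Additive.toMul u : (𝓞 L)ˣ) : 𝓞 L) : L)) := rfl

lemma sum_lw (u : Additive (𝓞 L)ˣ) : ∑ w : InfinitePlace L, lw w u = 0 :=
  Units.sum_mult_mul_log (Additive.toMul u)

/-- **Herbrand quotient of the units** -/
theorem unit_herbrand [IsUnramifiedAtInfinitePlaces K L] {σ : L ≃ₐ[K] L}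
    (hσ : ∀ g, g ∈ Subgroup.zpowers σ) :
    (dM (rho K L) σ).range.relIndex (tM (rho K L)).ker =
      Nat.card (L ≃ₐ[K] L) * (tM (rho K L)).range.relIndex (dM (rho K L) σ).ker ∧
      (tM (rho K L)).range.relIndex (dM (rho K L) σ).ker ≠ 0 := by
  classical
  -- places above the places of `K`
  have hex : ∀ v : InfinitePlace K, ∃ w : InfinitePlace L, w.comap (algebraMap K L) = v :=
    fun v => InfinitePlace.comap_surjective v
  choose pl hpl using hex
  have hun : ∀ v : InfinitePlace K, ∃ u : (𝓞 L)ˣ, ∀ w : InfinitePlace L, w ≠ pl v →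
      Real.log (w u) < 0 := fun v => Units.dirichletUnitTheorem.exists_unit L (pl v)
  choose un hun using hun
  let ε : InfinitePlace K → Additive (𝓞 L)ˣ := fun v => Additive.ofMul (un v)
  let π : InfinitePlace K × (L ≃ₐ[K] L) → InfinitePlace L := fun x => x.2 • pl x.1
  have hπs : Function.Surjective π := by
    intro w
    obtain ⟨g, hg⟩ := InfinitePlace.exists_smul_eq_of_comap_eq
      (k := K) (w := pl (w.comap (algebraMap K L))) (w' := w) (hpl _)
    exact ⟨(w.comap (algebraMap K L), g), hg⟩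
  have hcard : Fintype.card (InfinitePlace K × (L ≃ₐ[K] L)) =
      Fintype.card (InfinitePlace L) := by
    rw [IsUnramifiedAtInfinitePlaces.card_infinitePlace K L, Fintype.card_prod,
      ← Nat.card_eq_fintype_card (α := L ≃ₐ[K] L), IsGalois.card_aut_eq_finrank]
  have hπ : Function.Bijective π :=
    (Fintype.bijective_iff_surjective_and_card π).2 ⟨hπs, hcard⟩
  let u : InfinitePlace K × (L ≃ₐ[K] L) → Additive (𝓞 L)ˣ := fun x => rho K L x.2 (ε x.1)
  let l : InfinitePlace K × (L ≃ₐ[K] L) → InfinitePlace K × (L ≃ₐ[K] L) → ℝ :=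
    fun x y => lw (π y) (u x)
  have h0 : ∀ x, ∑ y, l x y = 0 := by
    intro x
    rw [← sum_lw (u x)]
    exact Fintype.sum_bijective π hπ _ _ (fun y => rfl)
  have hn : ∀ x y, x ≠ y → l x y < 0 := by
    intro x y hxy
    change lw (π y) (rho K L x.2 (ε x.1)) < 0
    rw [lw_apply, rho_coe]
    apply mul_neg_of_pos_of_neg
    · exact_mod_cast InfinitePlace.mult_pos
    · have h1 : (π y) (x.2 (((Additive.toMul (ε x.1) : (𝓞 L)ˣ) : 𝓞 L) : L)) =
          (x.2⁻¹ • π y) ((un x.1 : 𝓞 L) : L) := rfl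
      rw [h1]
      apply hun
      intro h2
      apply hxy
      apply hπ.1
      change x.2 • pl x.1 = π y
      rw [← h2, smul_inv_smul]
  have hl : ∀ a : InfinitePlace K × (L ≃ₐ[K] L) → ℤ, fM (rho K L) ε a = 0 →
      ∀ y, ∑ x, (a x : ℝ) * l x y = 0 := by
    intro a ha y
    have h1 := congrArg (lw (π y)) ha
    rw [fM_apply, map_sum, map_zero] at h1
    rw [← h1]
    refine Finset.sum_congr rfl fun x _ => ?_
    rw [map_zsmul, zsmul_eq_mul]
  have hS : ∀ a : InfinitePlace K × (L ≃ₐ[K] L) → ℤ, fM (rho K L) ε a = 0 → ∑ x, a x = 0 →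
      a = 0 := fun a ha hs => eq_zero_of_sum h0 hn (hl a ha) (Or.inl hs)
  obtain ⟨x₀⟩ : Nonempty (InfinitePlace K × (L ≃ₐ[K] L)) := inferInstance
  have hS' : ∀ a : InfinitePlace K × (L ≃ₐ[K] L) → ℤ, fM (rho K L) ε a = 0 → a x₀ = 0 →
      a = 0 := fun a ha hs => eq_zero_of_sum h0 hn (hl a ha) (Or.inr ⟨x₀, hs⟩)
  have hrk : finrank ℤ (Additive (𝓞 L)ˣ) < Fintype.card (InfinitePlace K × (L ≃ₐ[K] L)) := by
    rw [Units.finrank_eq, hcard, Units.rank]
    have : 0 < Fintype.card (InfinitePlace L) := Fintype.card_pos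
    omega
  have := herbrand_fM (ρ := rho K L) rho_mul hσ hS x₀ hS' (exists_rel hrk _)
    (index_ne_zero hrk _ x₀ hS')
  rw [Nat.card_eq_fintype_card]
  exact this

end Pool.Agent.Helper56.H94
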