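import Mathlib

/-!
# Galois invariant ideals of an unramified extension come from the ground field
-/

set_option autoImplicit false
set_option linter.unusedSectionVars false

open NumberField Ideal

namespace Pool.Agent.Helper56.H94

variable {K L : Type} [Field K] [NumberField K] [Field L] [NumberField L] [Algebra K L]
  [IsGalois K L]

lemma map_injective : Function.Injective
    (fun I : Ideal (𝓞 K) => I.map (algebraMap (𝓞 K) (𝓞 L))) := by
  intro I J h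
  apply FractionalIdeal.coeIdeal_injective (K := K)
  apply FractionalIdeal.extendedHom_injective (𝓞 K) K L (𝓞 L)
  change FractionalIdeal.extendedHom L (𝓞 L) (I : FractionalIdeal (nonZeroDivisors (𝓞 K)) K) =
    FractionalIdeal.extendedHom L (𝓞 L) (J : FractionalIdeal (nonZeroDivisors (𝓞 K)) K)
  rw [FractionalIdeal.extendedHom_coeIdeal_eq_map, FractionalIdeal.extendedHom_coeIdeal_eq_map]
  exact congrArg _ h

/-- the action of the Galois group on the ring of integers -/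
noncomputable abbrev gr (g : L ≃ₐ[K] L) : 𝓞 L ≃ₐ[𝓞 K] 𝓞 L := galRestrict (𝓞 K) K L (𝓞 L) g

lemma comap_gr_map (g : L ≃ₐ[K] L) (I : Ideal (𝓞 K)) :
    (I.map (algebraMap (𝓞 K) (𝓞 L))).comap (gr g : 𝓞 L →+* 𝓞 L) =
      I.map (algebraMap (𝓞 K) (𝓞 L)) := by
  have h1 : (I.map (algebraMap (𝓞 K) (𝓞 L))).comap (gr g : 𝓞 L →+* 𝓞 L) =
      (I.map (algebraMap (𝓞 K) (𝓞 L))).map ((gr g).symm : 𝓞 L →+* 𝓞 L) :=
    (Ideal.map_symm (gr g).toRingEquiv).symm
  rw [h1, Ideal.map_map]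
  congr 1
  ext x
  have : (gr g).symm (algebraMap (𝓞 K) (𝓞 L) x) = algebraMap (𝓞 K) (𝓞 L) x :=
    (gr g).symm.commutes x
  exact congrArg (fun y : 𝓞 L => (y : L)) this

/-- the prime below divides an invariant ideal -/
lemma le_map_of_le {I : Ideal (𝓞 L)}
    (hu : ∀ P : Ideal (𝓞 L), P.IsMaximal →
      ¬ (P.comap (algebraMap (𝓞 K) (𝓞 L))).map (algebraMap (𝓞 K) (𝓞 L)) ≤ P ^ 2)
    (h0 : I ≠ ⊥) (hI : ∀ g : L ≃ₐ[K] L, I.comap (gr g : 𝓞 L →+* 𝓞 L) = I) {P : Ideal (𝓞 L)}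
    (hP : P.IsMaximal) (hIP : I ≤ P) :
    I ≤ (P.comap (algebraMap (𝓞 K) (𝓞 L))).map (algebraMap (𝓞 K) (𝓞 L)) := by
  classical
  set p : Ideal (𝓞 K) := P.comap (algebraMap (𝓞 K) (𝓞 L)) with hp
  set A : Ideal (𝓞 L) := p.map (algebraMap (𝓞 K) (𝓞 L)) with hA
  have hP0 : P ≠ ⊥ := by
    rintro rfl
    exact h0 (le_bot_iff.1 hIP)
  have hpmax : p.IsMaximal := Ideal.isMaximal_comap_of_isIntegral_of_isMaximal P
  have hp0 : p ≠ ⊥ := by
    intro h
    exact hP0 (Ideal.eq_bot_of_comap_eq_bot h)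
  have hA0 : A ≠ ⊥ := by
    rw [hA, Ne, Ideal.map_eq_bot_iff_of_injective (FaithfulSMul.algebraMap_injective _ _)]
    exact hp0
  have hQ : ∀ Q : Ideal (𝓞 L), Q.IsMaximal → A ≤ Q → Q.comap (algebraMap (𝓞 K) (𝓞 L)) = p := by
    intro Q hQ hAQ
    have h1 : p ≤ Q.comap (algebraMap (𝓞 K) (𝓞 L)) := Ideal.map_le_iff_le_comap.1 hAQ
    exact (hpmax.eq_of_le (Ideal.comap_ne_top _ hQ.ne_top) h1).symm
  rw [← Ideal.dvd_iff_le, UniqueFactorizationMonoid.dvd_iff_normalizedFactors_le_normalizedFactors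
    hA0 h0]
  have hsq : Squarefree A := by
    rw [squarefree_iff_no_irreducibles hA0]
    intro Q hQi hQQ
    have hQp : Prime Q := hQi.prime
    have hQm : Q.IsMaximal := (Ideal.isPrime_of_prime hQp).isMaximal hQp.ne_zero
    have h2 : A ≤ Q * Q := Ideal.dvd_iff_le.1 hQQ
    apply hu Q hQm
    rw [hQ Q hQm (h2.trans Ideal.mul_le_left), pow_two]
    exact h2
  rw [Multiset.le_iff_subset
    ((UniqueFactorizationMonoid.squarefree_iff_nodup_normalizedFactors hA0).1 hsq)]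
  intro Q hQA
  have hQp : Prime Q := UniqueFactorizationMonoid.prime_of_normalized_factor Q hQA
  have hQm : Q.IsMaximal := (Ideal.isPrime_of_prime hQp).isMaximal hQp.ne_zero
  have hAQ : A ≤ Q := Ideal.dvd_iff_le.1 (UniqueFactorizationMonoid.dvd_of_mem_normalizedFactors hQA)
  obtain ⟨g, hg⟩ := Ideal.exists_comap_galRestrict_eq (𝓞 K) K L (𝓞 L) (p := p) (P₁ := P) (P₂ := Q)
    ⟨hP.isPrime, ⟨rfl⟩⟩ ⟨hQm.isPrime, ⟨(hQ Q hQm hAQ).symm⟩⟩
  have hIQ : I ≤ Q := by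
    rw [← hI g, ← hg]
    exact Ideal.comap_mono hIP
  obtain ⟨Q', hQ', hQQ'⟩ := UniqueFactorizationMonoid.exists_mem_normalizedFactors_of_dvd h0
    hQp.irreducible (Ideal.dvd_iff_le.2 hIQ)
  rwa [associated_iff_eq.1 hQQ']

/-- **Galois invariant ideals of an unramified extension come from the ground field** -/
theorem exists_map_eq
    (hu : ∀ P : Ideal (𝓞 L), P.IsMaximal →
      ¬ (P.comap (algebraMap (𝓞 K) (𝓞 L))).map (algebraMap (𝓞 K) (𝓞 L)) ≤ P ^ 2)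
    (I : Ideal (𝓞 L)) :
    I ≠ ⊥ → (∀ g : L ≃ₐ[K] L, I.comap (gr g : 𝓞 L →+* 𝓞 L) = I) →
    ∃ J : Ideal (𝓞 K), J.map (algebraMap (𝓞 K) (𝓞 L)) = I := by
  induction I using WellFoundedGT.induction with
  | ind I ih =>
    intro h0 hI
    by_cases htop : I = ⊤
    · exact ⟨⊤, by rw [htop, Ideal.map_top]⟩
    obtain ⟨P, hP, hIP⟩ := Ideal.exists_le_maximal I htop
    have h1 := le_map_of_le hu h0 hI hP hIP
    set p : Ideal (𝓞 K) := P.comap (algebraMap (𝓞 K) (𝓞 L)) with hp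
    obtain ⟨J, hJ⟩ := Ideal.dvd_iff_le.2 h1
    have hJ0 : J ≠ ⊥ := by
      rintro rfl
      rw [Ideal.mul_bot] at hJ
      exact h0 hJ
    have hp0 : p.map (algebraMap (𝓞 K) (𝓞 L)) ≠ ⊥ := by
      intro h
      rw [h, Ideal.bot_mul] at hJ
      exact h0 hJ
    have hlt : I < J := by
      refine lt_of_le_of_ne (hJ ▸ Ideal.mul_le_right) ?_
      intro h
      have h2 : p.map (algebraMap (𝓞 K) (𝓞 L)) = ⊤ := by
        rw [← Ideal.one_eq_top]
        have h3 : p.map (algebraMap (𝓞 K) (𝓞 L)) * J = 1 * J := by rw [one_mul, ← hJ, h]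
        exact mul_right_cancel₀ hJ0 h3
      have h3 : p.map (algebraMap (𝓞 K) (𝓞 L)) ≤ P := Ideal.map_comap_le
      rw [h2, top_le_iff] at h3
      exact hP.ne_top h3
    have hJi : ∀ g : L ≃ₐ[K] L, J.comap (gr g : 𝓞 L →+* 𝓞 L) = J := by
      intro g
      have h4 : p.map (algebraMap (𝓞 K) (𝓞 L)) * J.comap (gr g : 𝓞 L →+* 𝓞 L) =
          p.map (algebraMap (𝓞 K) (𝓞 L)) * J := by
        rw [← hJ, ← hI g]
        nth_rw 1 [← comap_gr_map g p]
        rw [hJ]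
        have h5 : ∀ A : Ideal (𝓞 L), A.comap (gr g : 𝓞 L →+* 𝓞 L) =
            A.map ((gr g).symm : 𝓞 L →+* 𝓞 L) := fun A => (Ideal.map_symm (gr g).toRingEquiv).symm
        rw [h5, h5, h5, Ideal.map_mul]
      exact mul_left_cancel₀ hp0 h4
    obtain ⟨J', hJ'⟩ := ih J hlt hJ0 hJi
    exact ⟨p * J', by rw [Ideal.map_mul, hJ', ← hJ]⟩

end Pool.Agent.Helper56.H94
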