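import Pool.Agent.Helper56.H94.Fld
import Pool.Agent.Helper56.H94.Inv

/-!
# The degree of a cyclic unramified extension divides the class number
-/

set_option autoImplicit false
set_option linter.unusedSectionVars false

open NumberField Ideal nonZeroDivisors

namespace Pool.Agent.Helper56.H94

variable {K L : Type} [Field K] [NumberField K] [Field L] [NumberField L] [Algebra K L]
  [IsGalois K L]

/-- the unit of an additive unit -/
abbrev un (u : Additive (𝓞 L)ˣ) : 𝓞 L := ((Additive.toMul u : (𝓞 L)ˣ) : 𝓞 L)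

lemma un_add (u v : Additive (𝓞 L)ˣ) : un (u + v) = un u * un v := rfl

lemma un_rho (g : L ≃ₐ[K] L) (u : Additive (𝓞 L)ˣ) : un (rho K L g u) = gr g (un u) := rfl

lemma gr_coe (g : L ≃ₐ[K] L) (x : 𝓞 L) : ((gr g x : 𝓞 L) : L) = g (x : L) :=
  algebraMap_galRestrict_apply (𝓞 K) g x

lemma gr_algebraMap (g : L ≃ₐ[K] L) (x : 𝓞 K) :
    gr g (algebraMap (𝓞 K) (𝓞 L) x) = algebraMap (𝓞 K) (𝓞 L) x := (gr g).commutes x

lemma gr_mul (g h : L ≃ₐ[K] L) (x : 𝓞 L) : gr (g * h) x = gr g (gr h x) := by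
  apply RingOfIntegers.ext
  rw [gr_coe, gr_coe, gr_coe]
  rfl

lemma gr_one (x : 𝓞 L) : gr (1 : L ≃ₐ[K] L) x = x := by
  apply RingOfIntegers.ext
  rw [gr_coe]
  rfl

/-- the relation between units of norm one and ideals of `K` -/
def Rel (σ : L ≃ₐ[K] L) (η : Additive (𝓞 L)ˣ) (α : 𝓞 L) (a : Ideal (𝓞 K)) : Prop :=
  α ≠ 0 ∧ un η * gr σ α = α ∧ a.map (algebraMap (𝓞 K) (𝓞 L)) = span {α}

lemma Rel.ne_zero {σ : L ≃ₐ[K] L} {η : Additive (𝓞 L)ˣ} {α : 𝓞 L} {a : Ideal (𝓞 K)}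
    (h : Rel σ η α a) : a ≠ 0 := by
  rintro rfl
  have h1 := h.2.2
  rw [Submodule.zero_eq_bot, Ideal.map_bot, eq_comm, Ideal.span_singleton_eq_bot] at h1
  exact h.1 h1

lemma assoc_gr {σ : L ≃ₐ[K] L} {α : 𝓞 L} (h : Associated (gr σ α) α) (g : L ≃ₐ[K] L)
    (hg : g ∈ Subgroup.zpowers σ) : Associated (gr g α) α := by
  let S : Subgroup (L ≃ₐ[K] L) :=
    { carrier := {g | Associated (gr g α) α}
      mul_mem' := by
        intro g h hg hh
        change Associated (gr (g * h) α) α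
        rw [gr_mul]
        exact (hh.map (gr g : 𝓞 L →* 𝓞 L)).trans hg
      one_mem' := by
        change Associated (gr 1 α) α
        rw [gr_one]
      inv_mem' := by
        intro g hg
        have h1 : Associated (gr g⁻¹ (gr g α)) (gr g⁻¹ α) :=
          Associated.map (gr g⁻¹ : 𝓞 L →* 𝓞 L) hg
        rw [← gr_mul, inv_mul_cancel, gr_one] at h1
        exact h1.symm }
  have hS : Subgroup.zpowers σ ≤ S := by
    rw [Subgroup.zpowers_le]
    exact h
  exact hS hg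

theorem exists_rel_ideal
    (hu : ∀ P : Ideal (𝓞 L), P.IsMaximal →
      ¬ (P.comap (algebraMap (𝓞 K) (𝓞 L))).map (algebraMap (𝓞 K) (𝓞 L)) ≤ P ^ 2)
    {σ : L ≃ₐ[K] L} (hσ : ∀ g, g ∈ Subgroup.zpowers σ) {η : Additive (𝓞 L)ˣ}
    (hη : tM (rho K L) η = 0) : ∃ α a, Rel σ η α a := by
  have hcyc : IsCyclic (L ≃ₐ[K] L) := ⟨⟨σ, hσ⟩⟩
  have hnorm : Algebra.norm K (algebraMap (𝓞 L) L (un η)) = 1 := by
    apply (algebraMap K L).injective
    rw [Algebra.norm_eq_prod_automorphisms, map_one]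
    have h1 : ∏ g : L ≃ₐ[K] L, Additive.toMul (rho K L g η) = 1 := by
      rw [tM_apply] at hη
      have := congrArg Additive.toMul hη
      rw [toMul_sum, toMul_zero] at this
      exact this
    have h2 := congrArg (fun u : (𝓞 L)ˣ => ((u : 𝓞 L) : L)) h1
    simp only [Units.coe_prod, Units.val_one, map_prod, map_one] at h2
    rw [← h2]
    exact Finset.prod_congr rfl fun g _ => (rho_coe g η).symm
  obtain ⟨α, h0, h1⟩ := groupCohomology.exists_mul_galRestrict_of_norm_eq_one (A := 𝓞 K) (B := 𝓞 L)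
    (K := K) (L := L) hσ hnorm
  have h2 : Associated (gr σ α) α := by
    refine ⟨Additive.toMul η, ?_⟩
    rw [mul_comm]; exact h1
  have h3 : ∀ g : L ≃ₐ[K] L, (span {α} : Ideal (𝓞 L)).comap (gr g : 𝓞 L →+* 𝓞 L) =
      span {α} := by
    intro g
    have h5 : (span {α} : Ideal (𝓞 L)).comap (gr g : 𝓞 L →+* 𝓞 L) =
        (span {α}).map ((gr g).symm : 𝓞 L →+* 𝓞 L) := (Ideal.map_symm (gr g).toRingEquiv).symm
    rw [h5, Ideal.map_span, Set.image_singleton, Ideal.span_singleton_eq_span_singleton]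
    have h6 : Associated ((gr g).symm (gr g α)) ((gr g).symm α) :=
      (assoc_gr h2 g (hσ g)).map ((gr g).symm : 𝓞 L →* 𝓞 L)
    rw [AlgEquiv.symm_apply_apply] at h6
    exact h6.symm
  obtain ⟨a, ha⟩ := exists_map_eq hu (span {α}) (by rwa [Ne, span_singleton_eq_bot]) h3
  exact ⟨α, a, h0, h1, ha⟩

theorem Rel.mk0_eq {σ : L ≃ₐ[K] L} (hσ : ∀ g, g ∈ Subgroup.zpowers σ) {η : Additive (𝓞 L)ˣ}
    {α β : 𝓞 L} {a b : Ideal (𝓞 K)} (h : Rel σ η α a) (h' : Rel σ η β b) :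
    ClassGroup.mk0 ⟨a, mem_nonZeroDivisors_of_ne_zero h.ne_zero⟩ =
      ClassGroup.mk0 ⟨b, mem_nonZeroDivisors_of_ne_zero h'.ne_zero⟩ := by
  have hα : (α : L) ≠ 0 := RingOfIntegers.coe_ne_zero_iff.2 h.1
  have hβ : (β : L) ≠ 0 := RingOfIntegers.coe_ne_zero_iff.2 h'.1
  have hfix : σ ((α : L) / β) = (α : L) / β := by
    have e1 := congrArg (fun x : 𝓞 L => (x : L)) h.2.1
    have e2 := congrArg (fun x : 𝓞 L => (x : L)) h'.2.1
    simp only [map_mul, gr_coe] at e1 e2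
    have hη : ((un η : 𝓞 L) : L) ≠ 0 := Units.coe_ne_zero _
    rw [map_div₀]
    have hσβ : σ (β : L) ≠ 0 := by
      intro h0
      rw [h0, mul_zero] at e2
      exact hβ e2.symm
    rw [div_eq_div_iff hσβ hβ]
    apply mul_left_cancel₀ hη
    calc ((un η : 𝓞 L) : L) * (σ (α : L) * β) = (((un η : 𝓞 L) : L) * σ (α : L)) * β := by ring
      _ = (α : L) * (((un η : 𝓞 L) : L) * σ (β : L)) := by rw [e1, e2]
      _ = _ := by ring
  have hfix' : ∀ g : L ≃ₐ[K] L, g ((α : L) / β) = (α : L) / β := by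
    intro g
    let S : Subgroup (L ≃ₐ[K] L) := MulAction.stabilizer (L ≃ₐ[K] L) ((α : L) / β)
    have hS : Subgroup.zpowers σ ≤ S := by
      rw [Subgroup.zpowers_le]
      exact hfix
    exact hS (hσ g)
  obtain ⟨z, hz⟩ := (IsGalois.mem_range_algebraMap_iff_fixed ((α : L) / β)).2 hfix'
  obtain ⟨x, y, hy, rfl⟩ := IsFractionRing.div_surjective (A := 𝓞 K) z
  have hy0 : (y : K) ≠ 0 := by
    rw [RingOfIntegers.coe_ne_zero_iff]
    exact nonZeroDivisors.ne_zero hy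
  have hyL : algebraMap K L (y : K) ≠ 0 := by
    rw [Ne, map_eq_zero]; exact hy0
  have h1 : algebraMap K L (x : K) * (β : L) = algebraMap K L (y : K) * (α : L) := by
    have h2 : algebraMap K L (x : K) / algebraMap K L (y : K) = (α : L) / β := by
      rw [← map_div₀]; exact hz
    rw [div_eq_div_iff hyL hβ] at h2
    rw [h2, mul_comm]
  have h2 : algebraMap (𝓞 K) (𝓞 L) x * β = algebraMap (𝓞 K) (𝓞 L) y * α :=
    RingOfIntegers.ext h1
  have hx : x ≠ 0 := by
    rintro rfl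
    rw [map_zero, zero_mul] at h2
    rcases mul_eq_zero.1 h2.symm with h3 | h3
    · rw [FaithfulSMul.algebraMap_eq_zero_iff] at h3
      exact nonZeroDivisors.ne_zero hy h3
    · exact h.1 h3
  rw [ClassGroup.mk0_eq_mk0_iff]
  refine ⟨y, x, nonZeroDivisors.ne_zero hy, hx, ?_⟩
  apply map_injective (L := L)
  change (span {y} * a).map (algebraMap (𝓞 K) (𝓞 L)) = (span {x} * b).map (algebraMap (𝓞 K) (𝓞 L))
  rw [Ideal.map_mul, Ideal.map_mul, h.2.2, h'.2.2, Ideal.map_span, Ideal.map_span,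
    Set.image_singleton, Set.image_singleton, Ideal.span_singleton_mul_span_singleton,
    Ideal.span_singleton_mul_span_singleton, h2]

lemma Rel.mul {σ : L ≃ₐ[K] L} {η θ : Additive (𝓞 L)ˣ}
    {α β : 𝓞 L} {a b : Ideal (𝓞 K)} (h : Rel σ η α a) (h' : Rel σ θ β b) :
    Rel σ (η + θ) (α * β) (a * b) := by
  refine ⟨mul_ne_zero h.1 h'.1, ?_, ?_⟩
  · rw [un_add, map_mul]
    calc un η * un θ * (gr σ α * gr σ β) = (un η * gr σ α) * (un θ * gr σ β) := by ring
      _ = _ := by rw [h.2.1, h'.2.1]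
  · rw [Ideal.map_mul, h.2.2, h'.2.2, Ideal.span_singleton_mul_span_singleton]

lemma rel_dM {σ : L ≃ₐ[K] L} (v : Additive (𝓞 L)ˣ) :
    Rel σ (dM (rho K L) σ v) (un (-v)) ⊤ := by
  refine ⟨Units.ne_zero _, ?_, ?_⟩
  · rw [← un_rho, ← un_add, dM_apply, map_neg]
    congr 1
    abel
  · rw [Ideal.map_top, eq_comm, Ideal.span_singleton_eq_top]
    exact Units.isUnit _

theorem card_dvd_classNumber
    (hu : ∀ P : Ideal (𝓞 L), P.IsMaximal →
      ¬ (P.comap (algebraMap (𝓞 K) (𝓞 L))).map (algebraMap (𝓞 K) (𝓞 L)) ≤ P ^ 2)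
    [IsCyclic (L ≃ₐ[K] L)] [IsUnramifiedAtInfinitePlaces K L] :
    Nat.card (L ≃ₐ[K] L) ∣ classNumber K := by
  obtain ⟨σ, hσ⟩ := IsCyclic.exists_generator (α := L ≃ₐ[K] L)
  have hex : ∀ η : (tM (rho K L)).ker, ∃ x : 𝓞 L × Ideal (𝓞 K), Rel σ η.1 x.1 x.2 := by
    intro η
    obtain ⟨α, a, h⟩ := exists_rel_ideal hu hσ η.2
    exact ⟨(α, a), h⟩
  choose f hf using hex
  let c : (tM (rho K L)).ker →+ Additive (ClassGroup (𝓞 K)) := AddMonoidHom.mk'
    (fun η => Additive.ofMul (ClassGroup.mk0 ⟨(f η).2,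
      mem_nonZeroDivisors_of_ne_zero (hf η).ne_zero⟩)) (by
      intro η θ
      rw [← ofMul_mul, ← map_mul]
      congr 1
      exact (hf (η + θ)).mk0_eq hσ ((hf η).mul (hf θ)))
  have hc : ∀ η, c η = Additive.ofMul (ClassGroup.mk0 ⟨(f η).2,
      mem_nonZeroDivisors_of_ne_zero (hf η).ne_zero⟩) := fun η => rfl
  have hker : c.ker = (dM (rho K L) σ).range.addSubgroupOf (tM (rho K L)).ker := by
    ext η
    rw [AddMonoidHom.mem_ker, AddSubgroup.mem_addSubgroupOf, hc]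
    constructor
    · intro h
      have h1 : ClassGroup.mk0 ⟨(f η).2, mem_nonZeroDivisors_of_ne_zero (hf η).ne_zero⟩ = 1 := h
      rw [ClassGroup.mk0_eq_one_iff] at h1
      obtain ⟨⟨a, ha⟩⟩ := h1
      have ha' : (f η).2 = span {a} := ha
      have h2 := (hf η).2.2
      rw [ha', Ideal.map_span, Set.image_singleton, Ideal.span_singleton_eq_span_singleton] at h2
      obtain ⟨u, hu'⟩ := h2
      have h3 := (hf η).2.1
      rw [← hu', map_mul, gr_algebraMap] at h3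
      have ha0 : algebraMap (𝓞 K) (𝓞 L) a ≠ 0 := by
        intro h0
        rw [h0, zero_mul] at hu'
        exact (hf η).1 hu'.symm
      have h4 : un η.1 * gr σ (u : 𝓞 L) = u := by
        apply mul_left_cancel₀ ha0
        rw [← h3]; ring
      refine ⟨-Additive.ofMul u, ?_⟩
      have h5 : η.1 + rho K L σ (Additive.ofMul u) = Additive.ofMul u := by
        apply Additive.toMul.injective
        exact Units.ext h4
      rw [dM_apply, map_neg]
      nth_rw 2 [← h5]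
      abel
    · rintro ⟨v, hv⟩
      have h1 : Rel σ η.1 (un (-v)) ⊤ := hv ▸ rel_dM v
      have h2 := (hf η).mk0_eq hσ h1
      rw [h2]
      have h3 : ClassGroup.mk0 ⟨(⊤ : Ideal (𝓞 K)), mem_nonZeroDivisors_of_ne_zero h1.ne_zero⟩ =
          1 := by
        rw [ClassGroup.mk0_eq_one_iff]
        exact ⟨⟨1, by simp⟩⟩
      rw [h3]; rfl
  have h1 : (dM (rho K L) σ).range.relIndex (tM (rho K L)).ker ∣ classNumber K := by
    change ((dM (rho K L) σ).range.addSubgroupOf (tM (rho K L)).ker).index ∣ _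
    rw [← hker, AddSubgroup.index_ker]
    have h2 := AddSubgroup.card_addSubgroup_dvd_card c.range
    have h3 : Nat.card (Additive (ClassGroup (𝓞 K))) = classNumber K := by
      rw [classNumber, ← Nat.card_eq_fintype_card]
      exact Nat.card_congr Additive.toMul
    rwa [h3] at h2
  rw [(unit_herbrand hσ).1] at h1
  exact (Dvd.intro _ rfl).trans h1

end Pool.Agent.Helper56.H94
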